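import Pool.Agent.TH152.BB.Stm

/-!
# Families of power series: assembly of the two cases
(bend and break of helper152; file by helper267)
-/

set_option autoImplicit false

namespace Pool.Agent.TH152.BB

open Pool.Agent.TH952 (Hah)

namespace Two

variable {k : Type} [Field k]

/-- the polynomial with the coefficients `a i`, `i < M` -/
noncomputable def PS (M : ℕ) (a : ℕ → k) : Polynomial k :=
  ∑ i ∈ Finset.range M, Polynomial.C (a i) * Polynomial.X ^ i

lemma PS_coeff (M : ℕ) (a : ℕ → k) (i : ℕ) : (PS M a).coeff i = if i < M then a i else 0 := by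
  unfold PS
  rw [Polynomial.finsetSum_coeff]
  simp only [Polynomial.coeff_C_mul, Polynomial.coeff_X_pow, mul_ite, mul_one, mul_zero]
  rw [Finset.sum_ite_eq]
  simp only [Finset.mem_range]

lemma PS_map (M : ℕ) (a : ℕ → k) : algebraMap (Polynomial k) (RatFunc k) (PS M a) =
    ∑ i ∈ Finset.range M, RatFunc.C (a i) * RatFunc.X ^ i := by
  unfold PS
  rw [map_sum]
  refine Finset.sum_congr rfl fun i _ => ?_
  rw [map_mul, map_pow, RatFunc.algebraMap_C, RatFunc.algebraMap_X]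

lemma PS_taylor (M : ℕ) (a : ℕ → k) (b : k) :
    algebraMap (Polynomial k) (RatFunc k) (Polynomial.taylor b (PS M a)) =
    ∑ i ∈ Finset.range M, RatFunc.C (a i) * (RatFunc.C b + RatFunc.X) ^ i := by
  rw [Polynomial.taylor_apply]
  unfold PS
  rw [Polynomial.sum_comp, map_sum]
  refine Finset.sum_congr rfl fun i _ => ?_
  rw [Polynomial.mul_comp, Polynomial.C_comp, Polynomial.X_pow_comp, map_mul, map_pow, map_add,
    RatFunc.algebraMap_C, RatFunc.algebraMap_C, RatFunc.algebraMap_X, add_comm (RatFunc.X)]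

lemma exists_M {q : ℚ} (hq : 0 < q) (μ : ℚ) (i : ℕ) : ∃ M : ℕ, μ < M * q ∧ i < M := by
  obtain ⟨M, hM⟩ := exists_nat_gt (μ / q)
  refine ⟨max M (i + 1), ?_, by omega⟩
  rw [div_lt_iff₀ hq] at hM
  refine hM.trans_le (mul_le_mul_of_nonneg_right ?_ hq.le)
  exact_mod_cast le_max_left M (i + 1)

/-- orders are nonnegative -/
lemma order_nn {K : Type} [Field K] {x : Hah K} (h : ∀ γ < 0, x.coeff γ = 0) (hx : x ≠ 0) : 0 ≤ x.order := by
  by_contra hcon
  exact hx (HahnSeries.coeff_order_eq_zero.1 (h _ (not_le.1 hcon)))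

/-- the coefficients of the leading polynomial -/
lemma lead_iff {d : ℕ → Hah k} (hd : ∀ i, ∀ γ < 0, (d i).coeff γ = 0) {q μ : ℚ} (hq : 0 < q)
    (hμ : ∀ i, d i ≠ 0 → μ ≤ (d i).order + i * q) {M : ℕ} (hM : μ < M * q) (i : ℕ) :
    (PS M fun i => (d i).coeff (μ - i * q)).coeff i ≠ 0 ↔ d i ≠ 0 ∧ (d i).order + i * q = μ := by
  rw [PS_coeff]
  constructor
  · intro h
    by_cases hi : i < M
    · rw [if_pos hi] at h
      have h0 : d i ≠ 0 := by
        intro h0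
        rw [h0, HahnSeries.coeff_zero] at h
        exact h rfl
      have h1 := HahnSeries.order_le_of_coeff_ne_zero h
      have h2 := hμ i h0
      exact ⟨h0, by linarith⟩
    · rw [if_neg hi] at h
      exact absurd rfl h
  · rintro ⟨h0, h1⟩
    have hi : i < M := by
      by_contra hcon
      have h2 : (M : ℚ) ≤ i := by exact_mod_cast not_lt.1 hcon
      have h3 := mul_le_mul_of_nonneg_right h2 hq.le
      have h4 := order_nn (hd i) h0
      linarith
    rw [if_pos hi, ← h1, add_sub_cancel_right]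
    exact fun h => h0 (HahnSeries.coeff_order_eq_zero.1 h)

lemma ps_nn (g : PowerSeries k) : ∀ γ < 0, (HahnSeries.ofPowerSeries ℚ k g).coeff γ = 0 := by
  intro γ hγ
  rw [HahnSeries.ofPowerSeries_apply]
  apply HahnSeries.embDomain_of_notMem_range
  rintro ⟨n, hn⟩
  have h1 : (n : ℚ) = γ := hn
  have h2 : (0 : ℚ) ≤ n := Nat.cast_nonneg n
  linarith

lemma ps_ne {g : PowerSeries k} (hg : g ≠ 0) : HahnSeries.ofPowerSeries ℚ k g ≠ 0 := by
  intro h
  exact hg (HahnSeries.ofPowerSeries_injective (h.trans (map_zero _).symm))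

/-- the hypothesis of LEAD from the lines -/
lemma lead_hyp {f : O2 k} {q μ : ℚ}
    (hμ : ∀ i, HahnSeries.ofPowerSeries ℚ k (PowerSeries.coeff i f) ≠ 0 →
      μ ≤ (HahnSeries.ofPowerSeries ℚ k (PowerSeries.coeff i f)).order + i * q) (i a : ℕ)
    (h : PowerSeries.coeff a (PowerSeries.coeff i f) ≠ 0) : μ ≤ a + i * q := by
  have h1 : (HahnSeries.ofPowerSeries ℚ k (PowerSeries.coeff i f)).coeff (a : ℚ) ≠ 0 := by
    rw [HahnSeries.ofPowerSeries_apply_coeff]
    exact h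
  have h2 : HahnSeries.ofPowerSeries ℚ k (PowerSeries.coeff i f) ≠ 0 := by
    intro h2
    rw [h2, HahnSeries.coeff_zero] at h1
    exact h1 rfl
  have h3 := HahnSeries.order_le_of_coeff_ne_zero h1
  have h4 := hμ i h2
  linarith

lemma dsc_at (β : Hah k) (q : ℚ) : (dsc β q).coeff q = RatFunc.C (β.coeff q) + RatFunc.X := by
  unfold dsc
  rw [HahnSeries.coeff_add, mp_coeff, HahnSeries.coeff_single_same]

lemma dsc_lt (β : Hah k) {q γ : ℚ} (h : γ < q) : (dsc β q).coeff γ = RatFunc.C (β.coeff γ) := by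
  unfold dsc
  rw [HahnSeries.coeff_add, mp_coeff, HahnSeries.coeff_single_of_ne h.ne, add_zero]

lemma C_add_X_ne (b : k) : RatFunc.C b + RatFunc.X ≠ 0 := by
  have h1 : RatFunc.C b + RatFunc.X = algebraMap (Polynomial k) (RatFunc k) (Polynomial.X + Polynomial.C b) := by
    rw [map_add, RatFunc.algebraMap_C, RatFunc.algebraMap_X, add_comm]
  rw [h1]
  exact RatFunc.algebraMap_ne_zero (Polynomial.X_add_C_ne_zero b)

lemma dsc_ne (β : Hah k) (q : ℚ) : dsc β q ≠ 0 := by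
  intro h
  have h1 := dsc_at β q
  rw [h, HahnSeries.coeff_zero] at h1
  exact C_add_X_ne _ h1.symm

/-- the evaluation at a disc -/
lemma ev (hEV : S_EV) {β : Hah k} (hβ : ∀ γ ≤ 0, β.coeff γ = 0) {q : ℚ} (hq : 0 < q) :
    ∃ E : O2 k →+* Hah (RatFunc k), IsEv RatFunc.C (dsc β q) E := by
  refine hEV k (RatFunc k) RatFunc.C (dsc β q) (fun γ hγ => ?_) (dsc_ne β q)
  rw [dsc_lt β (lt_of_le_of_lt hγ hq), hβ γ hγ, map_zero]

lemma hm_map {R R' : Type} [CommRing R] [Algebra k R] [CommRing R'] [Algebra k R'] (E : R →+* R')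
    (hE : ∀ a, E (algebraMap k R a) = algebraMap k R' a) {N : ℕ} (F : MvPolynomial (Fin N) k) (D : ℕ)
    (f0 : R) (f : Fin N → R) : E (hm F D f0 f) = hm F D (E f0) (fun j => E (f j)) := by
  unfold hm
  rw [map_sum]
  refine Finset.sum_congr rfl fun α _ => ?_
  rw [map_mul, map_mul, hE, map_pow, map_prod]
  simp only [map_pow]

lemma ev_alg {τ : Hah (RatFunc k)} {E : O2 k →+* Hah (RatFunc k)} (hE : IsEv RatFunc.C τ E) (a : k) :
    E (algebraMap k (O2 k) a) = algebraMap k (Hah (RatFunc k)) a := by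
  have h1 : algebraMap k (O2 k) a = PowerSeries.C (PowerSeries.C a) := by
    rw [PowerSeries.algebraMap_apply, PowerSeries.algebraMap_apply, Algebra.algebraMap_self_apply]
  have h2 : algebraMap k (Hah (RatFunc k)) a = HahnSeries.C (RatFunc.C a) := by
    rw [HahnSeries.algebraMap_apply', PowerSeries.algebraMap_apply, HahnSeries.ofPowerSeries_C,
      RatFunc.algebraMap_eq_C]
  rw [h1, hE.C, h2]
  show mp RatFunc.C (HahnSeries.ofPowerSeries ℚ k (PowerSeries.C a)) = _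
  rw [HahnSeries.ofPowerSeries_C]
  ext γ
  rw [mp_coeff, HahnSeries.C_apply, HahnSeries.C_apply, HahnSeries.coeff_single, HahnSeries.coeff_single]
  split_ifs
  · rfl
  · exact map_zero _

/-- the end of both cases -/
lemma finish (hREL : S_REL) {N : ℕ} (f0 : O2 k) (f : Fin N → O2 k) {τ : Hah (RatFunc k)}
    {E : O2 k →+* Hah (RatFunc k)} (hE : IsEv RatFunc.C τ E) {q μ : ℚ} (hq : 0 < q)
    {d0 : ℕ → Hah k} {d : Fin N → ℕ → Hah k} (hd0 : ∀ l, ∀ γ < 0, (d0 l).coeff γ = 0)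
    (hd : ∀ j i, ∀ γ < 0, (d j i).coeff γ = 0) (hμ0 : ∀ l, d0 l ≠ 0 → μ ≤ (d0 l).order + l * q)
    (hμ : ∀ j i, d j i ≠ 0 → μ ≤ (d j i).order + i * q)
    (hex : ∃ j i, d j i ≠ 0 ∧ (d j i).order + i * q = μ)
    (hlow0 : ∀ γ < μ, (E f0).coeff γ = 0) (hlow : ∀ j, ∀ γ < μ, (E (f j)).coeff γ = 0)
    {M : ℕ} (hM : μ < M * q)
    (hc0 : (E f0).coeff μ = ∑ i ∈ Finset.range M, RatFunc.C ((d0 i).coeff (μ - i * q)) * RatFunc.X ^ i)
    (hc : ∀ j, (E (f j)).coeff μ =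
      ∑ i ∈ Finset.range M, RatFunc.C ((d j i).coeff (μ - i * q)) * RatFunc.X ^ i)
    (hrel : (∀ j i, d j i ≠ 0 → (d j i).order + i * q = μ →
        ∃ l, d0 l ≠ 0 ∧ (d0 l).order + l * q = μ ∧ i < l) ∨
      (∀ j i, d j i ≠ 0 → (d j i).order + i * q = μ →
        ∃ l, d0 l ≠ 0 ∧ (d0 l).order + l * q = μ ∧ l < i)) :
    ∃ (P0 : Polynomial k) (P : Fin N → Polynomial k), P0 ≠ 0 ∧
      (∃ j, P j ≠ 0) ∧ ((∀ j, P j ≠ 0 → (P j).natDegree < P0.natDegree) ∨
        ∀ j, P j ≠ 0 → P0.natTrailingDegree < (P j).natTrailingDegree) ∧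
      ∀ (F : MvPolynomial (Fin N) k) (D : ℕ), (∀ α ∈ F.support, ∑ j, α j ≤ D) →
        hm F D f0 f = 0 → hm F D P0 P = 0 := by
  obtain ⟨P0, hP0⟩ : ∃ P0 : Polynomial k, P0 = PS M fun i => (d0 i).coeff (μ - i * q) := ⟨_, rfl⟩
  obtain ⟨P, hP⟩ : ∃ P : Fin N → Polynomial k, P = fun j => PS M fun i => (d j i).coeff (μ - i * q) :=
    ⟨_, rfl⟩
  have i0 : ∀ i, P0.coeff i ≠ 0 ↔ d0 i ≠ 0 ∧ (d0 i).order + i * q = μ := by
    intro i
    rw [hP0]
    exact lead_iff hd0 hq hμ0 hM i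
  have i1 : ∀ j i, (P j).coeff i ≠ 0 ↔ d j i ≠ 0 ∧ (d j i).order + i * q = μ := by
    intro j i
    rw [hP]
    exact lead_iff (hd j) hq (hμ j) hM i
  refine ⟨P0, P, ?_, ?_, ?_, ?_⟩
  · obtain ⟨j, i, h1, h2⟩ := hex
    obtain ⟨l, hl⟩ : ∃ l, P0.coeff l ≠ 0 := by
      rcases hrel with h | h
      · obtain ⟨l, h3, h4, _⟩ := h j i h1 h2
        exact ⟨l, (i0 l).2 ⟨h3, h4⟩⟩
      · obtain ⟨l, h3, h4, _⟩ := h j i h1 h2
        exact ⟨l, (i0 l).2 ⟨h3, h4⟩⟩
    intro h0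
    rw [h0, Polynomial.coeff_zero] at hl
    exact hl rfl
  · obtain ⟨j, i, h1, h2⟩ := hex
    refine ⟨j, fun h0 => ?_⟩
    have h3 := (i1 j i).2 ⟨h1, h2⟩
    rw [h0, Polynomial.coeff_zero] at h3
    exact h3 rfl
  · rcases hrel with h | h
    · left
      intro j hj
      have h1 : (P j).coeff (P j).natDegree ≠ 0 := by
        rw [Polynomial.coeff_natDegree]
        exact Polynomial.leadingCoeff_ne_zero.2 hj
      obtain ⟨h2, h3⟩ := (i1 j _).1 h1
      obtain ⟨l, h4, h5, h6⟩ := h j _ h2 h3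
      exact h6.trans_le (Polynomial.le_natDegree_of_ne_zero ((i0 l).2 ⟨h4, h5⟩))
    · right
      intro j hj
      have h1 : (P j).coeff (P j).natTrailingDegree ≠ 0 := by
        have := Polynomial.trailingCoeff_nonzero_iff_nonzero.2 hj
        exact this
      obtain ⟨h2, h3⟩ := (i1 j _).1 h1
      obtain ⟨l, h4, h5, h6⟩ := h j _ h2 h3
      exact (Polynomial.natTrailingDegree_le_of_ne_zero ((i0 l).2 ⟨h4, h5⟩)).trans_lt h6
  · intro F D hF h0
    refine hREL k N (E f0) (fun j => E (f j)) μ P0 P hlow0 hlow ?_ ?_ F D hF ?_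
    · rw [hP0, PS_map]
      exact hc0
    · intro j
      rw [hP, PS_map]
      exact hc j
    · rw [← hm_map E (ev_alg hE), h0, map_zero]

/-- the minimum of the lines -/
lemma exists_min {c0 : ℕ → Hah k} (h0 : ∀ l, ∀ γ < 0, (c0 l).coeff γ = 0) {r : ℕ} (hr : c0 r ≠ 0)
    {q : ℚ} (hq : 0 < q) : ∃ l, c0 l ≠ 0 ∧
      ∀ l', c0 l' ≠ 0 → (c0 l).order + l * q ≤ (c0 l').order + l' * q := by
  classical
  obtain ⟨L, hL, hrL⟩ := exists_M hq ((c0 r).order + r * q) r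
  obtain ⟨l, hl, hmin⟩ := Finset.exists_min_image ((Finset.range L).filter fun l => c0 l ≠ 0)
    (fun l => (c0 l).order + l * q) ⟨r, Finset.mem_filter.2 ⟨Finset.mem_range.2 hrL, hr⟩⟩
  rw [Finset.mem_filter] at hl
  refine ⟨l, hl.2, fun l' hl' => ?_⟩
  by_cases h : l' < L
  · exact hmin l' (Finset.mem_filter.2 ⟨Finset.mem_range.2 h, hl'⟩)
  · have h1 := hmin r (Finset.mem_filter.2 ⟨Finset.mem_range.2 hrL, hr⟩)
    have h2 : (L : ℚ) ≤ l' := by exact_mod_cast not_lt.1 h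
    have h3 := mul_le_mul_of_nonneg_right h2 hq.le
    have h4 := order_nn (h0 l') hl'
    linarith

/-- small discs around zero -/
lemma fact (hLEAD : S_LEAD) {N : ℕ} (f0 : O2 k) (f : Fin N → O2 k) {r : ℕ}
    (hr : PowerSeries.coeff r f0 ≠ 0) {q : ℚ} (hq : 0 < q) {β : Hah k}
    (hβ : ∀ γ < q, β.coeff γ = 0)
    (hb : ∀ j i, HahnSeries.ofPowerSeries ℚ k (PowerSeries.coeff i (f j)) ≠ 0 →
      ∃ l, HahnSeries.ofPowerSeries ℚ k (PowerSeries.coeff l f0) ≠ 0 ∧
        (HahnSeries.ofPowerSeries ℚ k (PowerSeries.coeff l f0)).order + l * q <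
          (HahnSeries.ofPowerSeries ℚ k (PowerSeries.coeff i (f j))).order + i * q)
    {E : O2 k →+* Hah (RatFunc k)} (hE : IsEv RatFunc.C (dsc β q) E) :
    E f0 ≠ 0 ∧ ∀ j, E (f j) ≠ 0 → (E f0).order < (E (f j)).order := by
  obtain ⟨l, hl, hmin⟩ := exists_min (c0 := fun l => HahnSeries.ofPowerSeries ℚ k (PowerSeries.coeff l f0))
    (fun l => ps_nn _) (ps_ne hr) hq
  obtain ⟨μ, hμ⟩ : ∃ μ : ℚ, μ = (HahnSeries.ofPowerSeries ℚ k (PowerSeries.coeff l f0)).order + l * q :=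
    ⟨_, rfl⟩
  rw [← hμ] at hmin
  obtain ⟨M, hM, _⟩ := exists_M hq μ 0
  have hτ : ∀ γ < q, (dsc β q).coeff γ = 0 := by
    intro γ hγ
    rw [dsc_lt β hγ, hβ γ hγ, map_zero]
  have h1 := (hLEAD k (RatFunc k) RatFunc.C (dsc β q) q hq hτ (dsc_ne β q) E hE f0 μ (lead_hyp hmin)).2 M hM
  rw [dsc_at, ← PS_taylor M fun i =>
    (HahnSeries.ofPowerSeries ℚ k (PowerSeries.coeff i f0)).coeff (μ - i * q)] at h1
  have h2 : (E f0).coeff μ ≠ 0 := by
    rw [h1]
    apply RatFunc.algebraMap_ne_zero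
    intro h3
    have h4 := Polynomial.taylor_injective (β.coeff q) (h3.trans (map_zero _).symm)
    have h5 := (lead_iff (d := fun l => HahnSeries.ofPowerSeries ℚ k (PowerSeries.coeff l f0))
      (fun l => ps_nn _) hq hmin hM l).2 ⟨hl, hμ.symm⟩
    rw [h4, Polynomial.coeff_zero] at h5
    exact h5 rfl
  refine ⟨fun h => h2 (by rw [h, HahnSeries.coeff_zero]), fun j hj => ?_⟩
  have h3 := HahnSeries.order_le_of_coeff_ne_zero h2
  -- all coefficients of `E (f j)` up to `μ` vanish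
  have hgt : ∀ i, HahnSeries.ofPowerSeries ℚ k (PowerSeries.coeff i (f j)) ≠ 0 →
      μ < (HahnSeries.ofPowerSeries ℚ k (PowerSeries.coeff i (f j))).order + i * q := by
    intro i hi
    obtain ⟨l', hl', hlt⟩ := hb j i hi
    exact (hmin l' hl').trans_lt hlt
  have h4 := hLEAD k (RatFunc k) RatFunc.C (dsc β q) q hq hτ (dsc_ne β q) E hE (f j) μ
    (lead_hyp fun i hi => (hgt i hi).le)
  have h5 : ∀ γ ≤ μ, (E (f j)).coeff γ = 0 := by
    intro γ hγ
    rcases hγ.lt_or_eq with h | h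
    · exact h4.1 γ h
    · rw [h, h4.2 M hM]
      refine Finset.sum_eq_zero fun i _ => ?_
      by_cases hi : HahnSeries.ofPowerSeries ℚ k (PowerSeries.coeff i (f j)) = 0
      · rw [hi, HahnSeries.coeff_zero, map_zero, zero_mul]
      · rw [HahnSeries.coeff_eq_zero_of_lt_order (by linarith [hgt i hi]), map_zero, zero_mul]
  by_contra hcon
  exact hj (HahnSeries.coeff_order_eq_zero.1 (h5 _ ((not_lt.1 hcon).trans h3)))

/-- consequences of the Taylor expansion -/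
lemma tay1 {G : Hah (RatFunc k)} {d : ℕ → Hah k} {q : ℚ} (hq : 0 < q)
    (hT : ∀ (γ : ℚ) (M : ℕ), γ < M * q → G.coeff γ =
      ∑ i ∈ Finset.range M, RatFunc.C ((d i).coeff (γ - i * q)) * RatFunc.X ^ i) {i : ℕ}
    (hi : d i ≠ 0) : G ≠ 0 ∧ G.order ≤ (d i).order + i * q := by
  obtain ⟨M, hM, hiM⟩ := exists_M hq ((d i).order + i * q) i
  have h1 := hT _ M hM
  rw [← PS_map M fun i' => (d i').coeff ((d i).order + i * q - i' * q)] at h1
  have h2 : G.coeff ((d i).order + i * q) ≠ 0 := by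
    rw [h1]
    apply RatFunc.algebraMap_ne_zero
    intro h3
    have h4 := congrArg (fun P => Polynomial.coeff P i) h3
    simp only [Polynomial.coeff_zero] at h4
    rw [PS_coeff, if_pos hiM, add_sub_cancel_right] at h4
    exact hi (HahnSeries.coeff_order_eq_zero.1 h4)
  exact ⟨fun h => h2 (by rw [h, HahnSeries.coeff_zero]), HahnSeries.order_le_of_coeff_ne_zero h2⟩

lemma tay2 {G : Hah (RatFunc k)} {d : ℕ → Hah k} {q : ℚ} (hq : 0 < q)
    (hT : ∀ (γ : ℚ) (M : ℕ), γ < M * q → G.coeff γ =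
      ∑ i ∈ Finset.range M, RatFunc.C ((d i).coeff (γ - i * q)) * RatFunc.X ^ i)
    (hG : G ≠ 0) : ∃ i, d i ≠ 0 ∧ (d i).order + i * q = G.order := by
  obtain ⟨M, hM, _⟩ := exists_M hq G.order 0
  have h1 := hT _ M hM
  have h2 : G.coeff G.order ≠ 0 := fun h => hG (HahnSeries.coeff_order_eq_zero.1 h)
  rw [h1] at h2
  obtain ⟨i, _, hi⟩ := Finset.exists_ne_zero_of_sum_ne_zero h2
  have h3 : (d i).coeff (G.order - i * q) ≠ 0 := by
    intro h3
    rw [h3, map_zero, zero_mul] at hi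
    exact hi rfl
  have h4 : d i ≠ 0 := by
    intro h4
    rw [h4, HahnSeries.coeff_zero] at h3
    exact h3 rfl
  have h5 := HahnSeries.order_le_of_coeff_ne_zero h3
  have h6 := (tay1 hq hT h4).2
  exact ⟨i, h4, by linarith⟩

/-- coefficients below all lines -/
lemma tay_low {G : Hah (RatFunc k)} {d : ℕ → Hah k} {q μ : ℚ} (hq : 0 < q)
    (hT : ∀ (γ : ℚ) (M : ℕ), γ < M * q → G.coeff γ =
      ∑ i ∈ Finset.range M, RatFunc.C ((d i).coeff (γ - i * q)) * RatFunc.X ^ i)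
    (hμ : ∀ i, d i ≠ 0 → μ ≤ (d i).order + i * q) (γ : ℚ) (hγ : γ < μ) : G.coeff γ = 0 := by
  obtain ⟨M, hM, _⟩ := exists_M hq γ 0
  rw [hT γ M hM]
  refine Finset.sum_eq_zero fun i _ => ?_
  by_cases hi : d i = 0
  · rw [hi, HahnSeries.coeff_zero, map_zero, zero_mul]
  · rw [HahnSeries.coeff_eq_zero_of_lt_order (by linarith [hμ i hi]), map_zero, zero_mul]

end Two

open Two

theorem two_all (hEV : S_EV) (hTAY : S_TAY) (hLEAD : S_LEAD) (hASC : S_ASC) (hDESC : S_DESC) (hCLM : S_CLM) (hREL : S_REL) : S_TWO := by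
  intro k _ _ _ N f0 f r hf0 hr hf hdvd
  obtain ⟨c0, hc0⟩ : ∃ c0 : ℕ → Hah k, c0 = fun l =>
    HahnSeries.ofPowerSeries ℚ k (PowerSeries.coeff l f0) := ⟨_, rfl⟩
  obtain ⟨c, hc⟩ : ∃ c : Fin N → ℕ → Hah k, c = fun j i =>
    HahnSeries.ofPowerSeries ℚ k (PowerSeries.coeff i (f j)) := ⟨_, rfl⟩
  have hc0n : ∀ l, ∀ γ < 0, (c0 l).coeff γ = 0 := by
    intro l
    rw [hc0]
    exact ps_nn _
  have hcn : ∀ j i, ∀ γ < 0, (c j i).coeff γ = 0 := by
    intro j i
    rw [hc]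
    exact ps_nn _
  have hc0r : c0 r ≠ 0 := by
    rw [hc0]
    exact ps_ne hr
  by_cases hcase : ∃ q0 : ℚ, 0 < q0 ∧ ∃ j i, c j i ≠ 0 ∧
      ∀ l, c0 l ≠ 0 → (c j i).order + i * q0 ≤ (c0 l).order + l * q0
  · -- case a
    obtain ⟨q0, hq0, hcr⟩ := hcase
    obtain ⟨q1, hq1, hq1'⟩ : ∃ q1 : ℚ, q0 < q1 ∧ (c0 r).order < q1 :=
      ⟨max q0 (c0 r).order + 1, by linarith [le_max_left q0 (c0 r).order],
        by linarith [le_max_right q0 (c0 r).order]⟩
    obtain ⟨q, μ, h1, h2, h3, h4, h5, h6⟩ := hDESC k N c0 c q0 q1 hq0 hq1 hc0n hcn (by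
      intro j i hji
      refine ⟨r, hc0r, ?_⟩
      have hri : r + 1 ≤ i := by
        by_contra hcon
        apply hji
        rw [hc]
        show HahnSeries.ofPowerSeries ℚ k (PowerSeries.coeff i (f j)) = 0
        rw [hf j i (by omega), map_zero]
      have h7 : ((r : ℚ) + 1) ≤ i := by exact_mod_cast hri
      have h8 := mul_le_mul_of_nonneg_right h7 (hq0.trans hq1).le
      have h9 := order_nn (hcn j i) hji
      linarith) hcr
    have hq : 0 < q := hq0.trans_le h1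
    obtain ⟨E, hE⟩ := ev hEV (β := (0 : Hah k)) (fun γ _ => HahnSeries.coeff_zero) hq
    obtain ⟨M, hM, _⟩ := exists_M hq μ 0
    have hτ : ∀ γ < q, (dsc (0 : Hah k) q).coeff γ = 0 := by
      intro γ hγ
      rw [dsc_lt _ hγ, HahnSeries.coeff_zero, map_zero]
    have hX : (dsc (0 : Hah k) q).coeff q = RatFunc.X := by
      rw [dsc_at, HahnSeries.coeff_zero, map_zero, zero_add]
    have hl0 := hLEAD k (RatFunc k) RatFunc.C (dsc 0 q) q hq hτ (dsc_ne 0 q) E hE f0 μ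
      (lead_hyp (by rw [hc0] at h3; exact h3))
    have hl := fun j => hLEAD k (RatFunc k) RatFunc.C (dsc 0 q) q hq hτ (dsc_ne 0 q) E hE (f j) μ
      (lead_hyp (by rw [hc] at h4; exact h4 j))
    refine finish hREL f0 f hE hq hc0n hcn h3 h4 h5 hl0.1 (fun j => (hl j).1) hM ?_ (fun j => ?_)
      (Or.inr h6)
    · rw [hl0.2 M hM, hX, hc0]
    · rw [(hl j).2 M hM, hX, hc]
  · -- case b
    push Not at hcase
    have hb : ∀ q : ℚ, 0 < q → ∀ j i, c j i ≠ 0 → ∃ l, c0 l ≠ 0 ∧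
        (c0 l).order + l * q < (c j i).order + i * q := fun q hq j i hji => hcase q hq j i hji
    have hf00 : f0 ≠ 0 := by
      intro h
      rw [h] at hr
      exact hr (map_zero _)
    obtain ⟨β, q1, hβ, hq1, hclm⟩ := hCLM k N f0 f hf00 hdvd
    obtain ⟨E1, hE1⟩ := ev hEV hβ hq1
    obtain ⟨j1, hj1, hj1'⟩ := hclm E1 hE1
    have hfact : ∀ q : ℚ, 0 < q → (∀ γ < q, β.coeff γ = 0) → ∀ E : O2 k →+* Hah (RatFunc k),
        IsEv RatFunc.C (dsc β q) E → E f0 ≠ 0 ∧ ∀ j, E (f j) ≠ 0 → (E f0).order < (E (f j)).order := by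
      intro q hq hβq E hE
      refine fact hLEAD f0 f hr hq hβq ?_ hE
      have h1 := hb q hq
      rw [hc0, hc] at h1
      exact h1
    have hβ0 : β ≠ 0 := by
      intro h0
      have h1 := hfact q1 hq1 (fun γ _ => by rw [h0, HahnSeries.coeff_zero]) E1 hE1
      rcases hj1' with h | h
      · exact h1.1 h
      · exact absurd (h1.2 j1 hj1) (not_lt.2 h)
    have hord : 0 < β.order := by
      by_contra hcon
      exact hβ0 (HahnSeries.coeff_order_eq_zero.1 (hβ _ (not_lt.1 hcon)))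
    have hβlt : ∀ γ < β.order, β.coeff γ = 0 := fun γ hγ => HahnSeries.coeff_eq_zero_of_lt_order hγ
    have hq01 : β.order < q1 := by
      by_contra hcon
      have h1 := hfact q1 hq1 (fun γ hγ => hβlt γ (hγ.trans_le (not_lt.1 hcon))) E1 hE1
      rcases hj1' with h | h
      · exact h1.1 h
      · exact absurd (h1.2 j1 hj1) (not_lt.2 h)
    -- the expansion at `β`
    obtain ⟨Eb, hEb⟩ := hEV k k (RingHom.id k) β hβ hβ0
    have hEbn : ∀ g : O2 k, ∀ γ < 0, (Eb g).coeff γ = 0 := by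
      intro g γ hγ
      rw [hEb.cont g γ 0 (by simpa using hγ), PowerSeries.trunc_zero']
      simp
    have hT : ∀ q : ℚ, 0 < q → ∀ E : O2 k →+* Hah (RatFunc k), IsEv RatFunc.C (dsc β q) E →
        ∀ (g : O2 k) (γ : ℚ) (M : ℕ), γ < M * q → (E g).coeff γ =
          ∑ i ∈ Finset.range M, RatFunc.C ((Eb (hs i g)).coeff (γ - i * q)) * RatFunc.X ^ i :=
      fun q hq E hE g γ M hM => hTAY k β q hβ hβ0 hq Eb E hEb hE g γ M hM
    obtain ⟨E0, hE0⟩ := ev hEV hβ hord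
    have hf0' := hfact β.order hord hβlt E0 hE0
    obtain ⟨q, μ, h1, h2, h3, h4, h5, h6⟩ := hASC k N (fun l => Eb (hs l f0)) (fun j i => Eb (hs i (f j)))
      β.order q1 hord hq01 (fun l => hEbn _) (fun j i => hEbn _) (by
        intro j i hji
        have t1 := tay1 (d := fun i => Eb (hs i (f j))) hord (hT _ hord E0 hE0 (f j)) hji
        have t2 := hf0'.2 j t1.1
        obtain ⟨l, hl, hl2⟩ := tay2 (d := fun i => Eb (hs i f0)) hord (hT _ hord E0 hE0 f0) hf0'.1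
        exact ⟨l, hl, by linarith [t1.2]⟩) (by
        obtain ⟨i, hi, hi2⟩ := tay2 (d := fun i => Eb (hs i (f j1))) hq1 (hT _ hq1 E1 hE1 (f j1)) hj1
        refine ⟨j1, i, hi, fun l hl => ?_⟩
        have t1 := tay1 (d := fun i => Eb (hs i f0)) hq1 (hT _ hq1 E1 hE1 f0) hl
        rcases hj1' with h | h
        · exact absurd h t1.1
        · linarith [t1.2])
    have hq : 0 < q := hord.trans h1
    obtain ⟨E, hE⟩ := ev hEV hβ hq
    obtain ⟨M, hM, _⟩ := exists_M hq μ 0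
    exact finish hREL f0 f hE hq (d0 := fun l => Eb (hs l f0)) (d := fun j i => Eb (hs i (f j)))
      (fun l => hEbn _) (fun j i => hEbn _) h3 h4 h5
      (tay_low hq (hT q hq E hE f0) h3) (fun j => tay_low hq (hT q hq E hE (f j)) (h4 j)) hM
      (hT q hq E hE f0 μ M hM) (fun j => hT q hq E hE (f j) μ M hM) (Or.inl h6)

end Pool.Agent.TH152.BB

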